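import Pool.Agent.Lib.MP_1db5af_an.Ae.Gen

set_option autoImplicit false

namespace Pool.Agent.Lib.MP_1db5af_an.Old.AlmostAllC

open MeasureTheory Filter Topology Pool.Agent.Lib.MP_1db5af_an

theorem result {X : Type*} (m : MeasurableSpace X) [m0 : MeasurableSpace X] (μ : Measure X)
    [IsProbabilityMeasure μ] (S : X → X) (hS : MeasurePreserving S μ μ)
    (hm : m ≤ m0) (hcg : @MeasurableSpace.CountablyGenerated X m) :
    ∀ᵐ c : ℝ, 0 < c → c < 1 / 2 → ∀ T : X → X, MeasurePreserving T μ μ → ZeroEnt μ T →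
      ∀ f g : X → ℂ, MemLp f ⊤ μ → MemLp g ⊤ μ → AEStronglyMeasurable[m] g μ →
        Tendsto (fun N : ℕ => eLpNorm (fun x =>
          (N : ℂ)⁻¹ * ∑ n ∈ Finset.Icc 1 N, f (T^[n] x) * g (S^[⌊G c n⌋₊] x) -
            (μ[f | MeasurableSpace.invariants T]) x * (μ[g | MeasurableSpace.invariants S]) x) 2 μ)
          atTop (𝓝 0) :=
  ae_gen (hcg := hcg) m hS hm

end Pool.Agent.Lib.MP_1db5af_an.Old.AlmostAllC
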