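import Pool.Agent.Lib.MP_1db5af_an.ThmA
import Pool.Agent.Lib.MP_1db5af_an.Weyl

set_option autoImplicit false

namespace Pool.Agent.Lib.MP_1db5af_an.Old.SingularT

open MeasureTheory Filter Topology Pool.Agent.Lib.MP_1db5af_an

theorem result {X : Type*} [MeasurableSpace X] (μ : Measure X) [IsProbabilityMeasure μ]
    (T S : X → X) (hT : MeasurePreserving T μ μ) (hS : MeasurePreserving S μ μ)
    (c : ℝ) (hc0 : 0 < c) (hc : c < 1 / 2) (f g : X → ℂ) (hf : MemLp f ⊤ μ) (hg : MemLp g ⊤ μ)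
    (hs : SingVec μ T f) :
    Tendsto (fun N : ℕ => eLpNorm (fun x =>
      (N : ℂ)⁻¹ * ∑ n ∈ Finset.Icc 1 N, f (T^[n] x) * g (S^[⌊G c n⌋₊] x) -
        (μ[f | MeasurableSpace.invariants T]) x * (μ[g | MeasurableSpace.invariants S]) x) 2 μ)
      atTop (𝓝 0) :=
  thmA hT hS (weyl_G hc0 hc) (mono_G hc0) hf hg hs

end Pool.Agent.Lib.MP_1db5af_an.Old.SingularT
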