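import Pool.Agent.Lib.MP_1db5af_an.TwMain
import Pool.Agent.Lib.MP_1db5af_an.Weyl

set_option autoImplicit false

namespace Pool.Agent.Lib.MP_1db5af_an.Old.Tower

open MeasureTheory Filter Topology Pool.Agent.Lib.MP_1db5af_an

theorem result {X : Type*} (m : MeasurableSpace X) [MeasurableSpace X] (μ : Measure X)
    [IsProbabilityMeasure μ]
    (T S : X → X) (hT : MeasurePreserving T μ μ) (hZ : ZeroEnt μ T) (hS : Ergodic S μ)
    (hm : Tower μ S m)
    (c : ℝ) (hc0 : 0 < c) (hc : c < 1 / 2) (f g : X → ℂ) (hf : MemLp f ⊤ μ) (hg : MemLp g ⊤ μ)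
    (hgm : AEStronglyMeasurable[m] g μ) :
    Tendsto (fun N : ℕ => eLpNorm (fun x =>
      (N : ℂ)⁻¹ * ∑ n ∈ Finset.Icc 1 N, f (T^[n] x) * g (S^[⌊G c n⌋₊] x) -
        (μ[f | MeasurableSpace.invariants T]) x * (μ[g | MeasurableSpace.invariants S]) x) 2 μ)
      atTop (𝓝 0) :=
  thmC hT hZ hS (tower_je hS (weyl_G hc0 hc) (mono_G hc0) (gap_G hc0) hm).1
    (tower_je hS (weyl_G hc0 hc) (mono_G hc0) (gap_G hc0) hm).2 hf hg hgm

end Pool.Agent.Lib.MP_1db5af_an.Old.Tower
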